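import Pool.Agent.Q311.LN.E
import Pool.Agent.Y776.Cv.Var
import Pool.Agent.TH813.EKPer

/-!
# The elliptic analogue of Schanuel's conjecture, in bounded degree, for analytic families of lattices and points of any
# dimension

Let `Λ_x`, `x ∈ U`, be a family of lattices with periods `ω₁(x), ω₂(x)`, and `p_1(x), …, p_n(x)` points outside `Λ_x`,
where `U` is a connected open subset of an affine space, of any dimension. We assume that the functions `ω₁, ω₂, η₁, g₂,
g₃`, `p_i, ℘(p_i), ζ(p_i)` are analytic on `U`. Neither the points nor the lattices are assumed to be algebraic in any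
sense. Genericity is required along one line which meets `U` only: `ω₂ / ω₁` is not constant along it and no nontrivial
combination `∑ n_i p_i(x)` with integral coefficients is in `Λ_x` for all points `x` of it.

For given `x` the conjecture says that at least `2 n` of the `2 + 3 n` numbers `g₂, g₃`, `p_i(x), ℘(p_i(x)), ζ(p_i(x))`
are algebraically independent, if the `p_i(x)` are linearly independent over `ℚ ⊗ End`. The theorem: there are `2 n` fixed
functions among them, and `3 + 2 n` fixed functions among these and `ω₁, ω₂, η₁`, such that at almost all algebraic points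
`x` their values are independent in bounded degree: there are bounds `ω T → ∞` such that for all number fields `K` of
degree at most `ω T`, at all points `x ∈ U` with coordinates in `K` of height at most `T` outside few hypersurfaces of small
degree, they do not satisfy any nontrivial relation of degree at most `ω T` whose coefficients are combinations of
arbitrary complex constants `ξ` with integral coefficients in `K` of size at most `T ^ ω T`. (The points `p_i(x)` can be
dependent at the points of hypersurfaces, so exceptional hypersurfaces cannot be avoided.)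
-/

set_option autoImplicit false

open Pool.Agent.Q311.MV Pool.Agent.Q311.LN
open scoped PeriodPair

namespace Pool.Agent.Results.MP_2ad15a_nt.AnalyticFamilies

/-- The names of the functions `ω₁, ω₂, η₁, g₂, g₃`, `p_i`, `ζ(p_i)`, `℘(p_i)`. -/
inductive Name (n : ℕ) : Type
  | omega₁ : Name n
  | omega₂ : Name n
  | eta₁ : Name n
  | g₂ : Name n
  | g₃ : Name n
  | p : Fin n → Name n
  | zeta : Fin n → Name n
  | wp : Fin n → Name n

/-- The numbers `g₂, g₃`, `p_i, ℘(p_i), ζ(p_i)` of the conjecture. -/
def InList {n : ℕ} : Name n → Prop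
  | Name.omega₁ => False
  | Name.omega₂ => False
  | Name.eta₁ => False
  | _ => True

/-- The values of the functions at the point `x`; here `η₁ = 2 ζ(ω₁ / 2)`. -/
noncomputable def value {X : Type} {n : ℕ} (Λ : (X → ℂ) → PeriodPair) (p : Fin n → (X → ℂ) → ℂ) (x : X → ℂ) :
    Name n → ℂ
  | Name.omega₁ => (Λ x).ω₁
  | Name.omega₂ => (Λ x).ω₂
  | Name.eta₁ => 2 * ζ (Λ x) ((Λ x).ω₁ / 2)
  | Name.g₂ => (Λ x).g₂
  | Name.g₃ => (Λ x).g₃
  | Name.p i => p i x
  | Name.zeta i => ζ (Λ x) (p i x)
  | Name.wp i => ℘[Λ x] (p i x)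

/-- An analytic family of lattices with points, generic along the line `a + z v` near the point with parameter `z₀`. -/
structure Family {X : Type} [Fintype X] (U : Set (X → ℂ)) {n : ℕ} (Λ : (X → ℂ) → PeriodPair) (p : Fin n → (X → ℂ) → ℂ)
    (a v : X → ℂ) (z₀ : ℂ) (r : ℝ) : Prop where
  isPreconnected : IsPreconnected U
  analytic : ∀ m : Name n, AnalyticOnNhd ℂ (fun x => value Λ p x m) U
  p_notMem : ∀ i, ∀ x ∈ U, p i x ∉ (Λ x).lattice
  r_pos : 0 < r
  mem : ∀ z ∈ Metric.ball z₀ r, pt a v z ∈ U
  /-- the quotient of the periods is not constant along the line -/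
  nonconstant : ∀ c : ℂ, ∃ z ∈ Metric.ball z₀ r, (Λ (pt a v z)).ω₂ / (Λ (pt a v z)).ω₁ ≠ c
  /-- the points are independent modulo torsion along the line -/
  independent : ∀ m : Fin n → ℤ,
    (∀ z ∈ Metric.ball z₀ r, ∑ i, (m i : ℂ) * p i (pt a v z) ∈ (Λ (pt a v z)).lattice) → m = 0

/-- the name of a function -/
def nm {n : ℕ} : Y776.Cv.Nv n 0 → Name n :=
  Sum.elim ![Name.omega₁, Name.omega₂, Name.eta₁, Name.g₂, Name.g₃] (Sum.elim Name.p (Sum.elim Name.zeta
    (Sum.elim Name.wp (Sum.elim (fun k : Fin 0 => k.elim0) (fun k : Fin 0 => k.elim0)))))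

/-- the function with a given name -/
def mn {n : ℕ} : Name n → Y776.Cv.Nv n 0 := fun a => match a with
  | Name.omega₁ => Sum.inl 0
  | Name.omega₂ => Sum.inl 1
  | Name.eta₁ => Sum.inl 2
  | Name.g₂ => Sum.inl 3
  | Name.g₃ => Sum.inl 4
  | Name.p i => Sum.inr (Sum.inl i)
  | Name.zeta i => Sum.inr (Sum.inr (Sum.inl i))
  | Name.wp i => Sum.inr (Sum.inr (Sum.inr (Sum.inl i)))

/-- the names and the functions of the library -/
def eqv (n : ℕ) : Y776.Cv.Nv n 0 ≃ Name n where
  toFun := nm
  invFun := mn
  left_inv := by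
    rintro (a | a | a | a | a | a)
    · fin_cases a <;> rfl
    · rfl
    · rfl
    · rfl
    · exact a.elim0
    · exact a.elim0
  right_inv := by rintro (_ | _ | _ | _ | _ | i | i | i) <;> rfl

noncomputable instance (n : ℕ) : Fintype (Name n) := Fintype.ofEquiv _ (eqv n)

noncomputable instance (n : ℕ) : DecidableEq (Name n) := Classical.decEq _

variable {X : Type} [Fintype X] [DecidableEq X] {U : Set (X → ℂ)} {n : ℕ} {Λ : (X → ℂ) → PeriodPair}
  {p : Fin n → (X → ℂ) → ℂ} {a v : X → ℂ} {z₀ : ℂ} {r : ℝ}

omit [Fintype X] [DecidableEq X] in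
theorem value_eq (o : Y776.Cv.Nv n 0) (z : ℂ) : value Λ p (pt a v z) (nm o) =
    Y776.Cv.yv (fun z => Λ (pt a v z)) (fun i z => p i (pt a v z)) (fun (k : Fin 0) _ => k.elim0) o z := by
  rcases o with o | i | i | i | k | k
  · fin_cases o
    · rfl
    · rfl
    · exact (Pool.Agent.TH813.Ell.eta_half (Λ (pt a v z)).ω₁_mem_lattice
        (Pool.Agent.TH813.Ell.half₁ (Λ (pt a v z)))).symm
    · rfl
    · rfl
  · rfl
  · rfl
  · rfl
  · exact k.elim0
  · exact k.elim0

/-- independent functions -/
theorem indep (hU : IsOpen U) (h : Family U Λ p a v z₀ r) :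
    ∃ e : Fin (2 * n + 3) → Name n, Function.Injective e ∧ IndepM U fun k x => value Λ p x (e k) := by
  classical
  have han : ∀ m : Name n, AnalyticOnNhd ℂ (fun z => value Λ p (pt a v z) m) (Metric.ball z₀ r) := fun m z hz =>
    AnalyticAt.fun_comp (g := fun x => value Λ p x m) (f := pt a v) (h.analytic m _ (h.mem z hz)) (pt_an a v z)
  have hF : Y776.Cv.FxV (Metric.ball z₀ r) (fun z => Λ (pt a v z)) (fun i z => p i (pt a v z))
      (fun (k : Fin 0) _ => k.elim0) :=
    { isOpen := Metric.isOpen_ball, conn := (convex_ball z₀ r).isPreconnected, an₁ := han Name.omega₁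
      an₂ := han Name.omega₂, nr := h.nonconstant, ua := fun i => han (Name.p i)
      un := fun i z hz => h.p_notMem i _ (h.mem z hz), ui := h.independent, la := fun k => k.elim0
      li := fun m c _ => funext fun k => k.elim0 }
  obtain ⟨e, he, hL⟩ := Y776.Cv.var_sub hF ⟨z₀, Metric.mem_ball_self h.r_pos⟩
  have hcast : 2 * n + 3 = 3 + (0 + 2 * n) := by ring
  refine ⟨fun k => nm (e (Fin.cast hcast k)), fun k l hkl =>
    Fin.cast_injective hcast (he ((eqv n).injective hkl)), ?_⟩
  refine indep_of_line hU (fun i => h.analytic _) (a := a) (v := v) (t0 := z₀)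
    (h.mem z₀ (Metric.mem_ball_self h.r_pos)) ?_
  have h1 := hL z₀ (Metric.mem_ball_self h.r_pos)
  intro P hP
  have h2 := h1 (MvPolynomial.rename (Option.map (Fin.cast hcast)) P) (by
    filter_upwards [hP] with z hz
    rw [MvPolynomial.eval_rename, ← hz]
    congr 2
    funext o
    rcases o with _ | k
    · rfl
    · exact (value_eq (e (Fin.cast hcast k)) z).symm)
  exact MvPolynomial.rename_injective _ (Option.map_injective (Fin.cast_injective hcast)) (by rw [h2, map_zero])

/-- Let `Λ` be a family of lattices over the connected open set `U ⊆ ℂ ^ X`, with `n` families of points, analytic and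
generic along one line. There are `2 n + 3` different functions among `ω₁, ω₂, η₁, g₂, g₃`, `p_i, ℘(p_i), ζ(p_i)`, and
`2 n` different functions among `g₂, g₃`, `p_i, ℘(p_i), ζ(p_i)`, whose values at almost all points over all number fields
are independent. -/
theorem result {X : Type} [Fintype X] [DecidableEq X] [Nonempty X] (U : Set (X → ℂ)) (hU : IsOpen U) {n : ℕ}
    (Λ : (X → ℂ) → PeriodPair) (p : Fin n → (X → ℂ) → ℂ) (a v : X → ℂ) (z₀ : ℂ) (r : ℝ)
    (h : Family U Λ p a v z₀ r) :
    (∃ e : Fin (2 * n + 3) → Name n, Function.Injective e ∧ AlmostAllValues U fun k x => value Λ p x (e k)) ∧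
    ∃ e : Fin (2 * n) → Name n, Function.Injective e ∧ (∀ k, InList (e k)) ∧
      AlmostAllValues U fun k x => value Λ p x (e k) := by
  classical
  have hne : U.Nonempty := ⟨_, h.mem z₀ (Metric.mem_ball_self h.r_pos)⟩
  obtain ⟨e, he, hI⟩ := indep hU h
  refine ⟨⟨e, he, almostAll_of_indep h.isPreconnected hU hne (fun n => h.analytic _) hI⟩, ?_⟩
  obtain ⟨e', he', hB, hI'⟩ := indep_in (F := fun m x => value Λ p x m) (m := 2 * n) (d := 3) (e := e) he hI
    (fun m => InList m) (by
    have h1 : (Finset.univ.filter fun m : Name n => ¬ InList m) ⊆ {Name.omega₁, Name.omega₂, Name.eta₁} := by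
      intro m hm
      rw [Finset.mem_filter] at hm
      rcases m with _ | _ | _ | _ | _ | i | i | i
      · simp
      · simp
      · simp
      · exact absurd trivial hm.2
      · exact absurd trivial hm.2
      · exact absurd trivial hm.2
      · exact absurd trivial hm.2
      · exact absurd trivial hm.2
    exact (Finset.card_le_card h1).trans Finset.card_le_three)
  exact ⟨e', he', hB, almostAll_of_indep h.isPreconnected hU hne (fun n => h.analytic _) hI'⟩

end Pool.Agent.Results.MP_2ad15a_nt.AnalyticFamilies
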