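import Pool.Agent.Q192.QD.FixAll
import Pool.Agent.Q192.QD.Sigma

/-!
# The elliptic analogue of Schanuel's conjecture: several points, algebraic parameters in many number fields

Let `Λ_1, …, Λ_q` be **arbitrary** lattices, pairwise not isogenous, `p_1, …, p_r` analytic functions on a connected open set
`U`, `p_i` with values outside its lattice `Λ_(c(i))`, such that for each `c` no nontrivial combination of the `p_i` of the
lattice `Λ_c` with coefficients in `End (ℂ / Λ_c)` is constant, and `t_1, …, t_s` analytic functions no nontrivial combination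
of which with integral coefficients is constant. We suppose that a set `S` of `r + s` of the `3 r + 2 s` functions

  `p_i, ℘(p_i), ζ(p_i)` (of the lattice `Λ_(c(i))`), `t_k, exp(t_k)`

consists of algebraic functions of `z`: for instance the functions `℘(p_i)` and `exp(t_k)` (logarithms of algebraic points
of `Λ_c` and `𝔾_m` over `ℂ(z)`), or `p_i` and `t_k` (the side of the theorem of Lindemann and Weierstrass), or mixtures.

For one lattice and `r` points independent over `k` the conjecture says that `2 r` of the numbers `g₂, g₃, p_i, ℘(p_i), ζ(p_i)`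
are algebraically independent. Let `X_1, …, X_n` be **any** finite sets of algebraic numbers of degree at most `m` and height
at most `T`, in given compact sets, and let `φ_j` be the number of the different fields `ℚ(x)`, `x ∈ X_j`. We prove for `n`
curves as above that for all `n`-tuples in `X_1 × ⋯ × X_n`, with at most

  `C T^ε ∑_j φ_j ∏_(i ≠ j) |X_i|`

exceptions, the `∑ (2 r_j + s_j)` numbers not in the `S_j` do not satisfy any (approximate) relation of degree at most `d` in
each variable, whose coefficients are combinations of arbitrary complex numbers `ξ_1, …, ξ_g` (for instance monomials in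
`g₂, g₃`, `π`, the periods and quasi-periods of all `Λ_c`) with coefficients in the integers of the field `ℚ(x_1, …, x_n)`, of
size at most `T^A`. All constants are uniform in the sets `X_j` and in the `ξ_i`.

In the starting results `NumberFieldTuples`, `TuplesOfAllKinds` there is one point for each coordinate, the function in
`S` is the coordinate itself, and all tuples are in one number field.

Proof: Ax's theorem for curves in products of (universal vector extensions of) elliptic curves and `𝔾_m`
(`Pool.Agent.Y776.Cv.Fix`, not used before), and the counting theorem for finite sets of algebraic numbers of bounded degree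
(`Pool.Agent.Q192.QD`, from `Pool.Agent.Y124`).
-/

set_option autoImplicit false

open scoped PeriodPair

namespace Pool.Agent.Results.MP_2ad15a_nt.ManyNumberFields

/-- The Weierstrass zeta function `ζ(z) = ∑ (1/(z-l) + 1/l + z/l²)`, the sum over the lattice (the summand of `l = 0` is
`1/z`, since `1/0 = 0` in Lean). -/
noncomputable def ζ (L : PeriodPair) (z : ℂ) : ℂ :=
  ∑' l : L.lattice, (1 / (z - l) + 1 / l + z / l ^ 2)

/-- The names of the functions `p_i`, `℘(p_i)`, `ζ(p_i)`, `t_k`, `exp(t_k)`. -/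
inductive Name (r s : ℕ) : Type
  | p : Fin r → Name r s
  | wp : Fin r → Name r s
  | zeta : Fin r → Name r s
  | t : Fin s → Name r s
  | expt : Fin s → Name r s

/-- The values of the functions at the point `z`. -/
noncomputable def value {q r s : ℕ} (Λ : Fin q → PeriodPair) (c : Fin r → Fin q) (p : Fin r → ℂ → ℂ)
    (t : Fin s → ℂ → ℂ) (z : ℂ) : Name r s → ℂ
  | Name.p i => p i z
  | Name.wp i => ℘[Λ (c i)] (p i z)
  | Name.zeta i => ζ (Λ (c i)) (p i z)
  | Name.t k => t k z
  | Name.expt k => Complex.exp (t k z)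

/-- `f` is algebraic over `ℂ(z)` on `U`. -/
def Algebraic (U : Set ℂ) (f : ℂ → ℂ) : Prop :=
  ∃ P : MvPolynomial (Fin 2) ℂ, P ≠ 0 ∧ ∀ z ∈ U, MvPolynomial.eval ![z, f z] P = 0

/-- `r` points on `q` elliptic curves which are not isogenous, `s` exponents, and a set `S` of `r + s` of the `3 r + 2 s`
functions, which are algebraic. -/
structure Curve (U : Set ℂ) {q r s : ℕ} (Λ : Fin q → PeriodPair) (c : Fin r → Fin q) (p : Fin r → ℂ → ℂ)
    (t : Fin s → ℂ → ℂ) (S : Finset (Name r s)) : Prop where
  pos : 0 < r + s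
  isOpen : IsOpen U
  isPreconnected : IsPreconnected U
  nonempty : U.Nonempty
  /-- different lattices are not isogenous -/
  not_isogenous : ∀ a b, a ≠ b → ∀ α : ℂ, (∀ w ∈ (Λ a).lattice, α * w ∈ (Λ b).lattice) → α = 0
  /-- the functions are analytic and the points of the elliptic curves are not zero -/
  analytic_p : ∀ i, AnalyticOnNhd ℂ (p i) U
  p_notMem : ∀ i, ∀ z ∈ U, p i z ∉ (Λ (c i)).lattice
  /-- no nontrivial combination of points of the curve `b`, with endomorphisms of the curve as coefficients, is constant -/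
  independent_p : ∀ (b : Fin q) (a : Fin r → ℂ) (e : ℂ), (∀ i, ∀ w ∈ (Λ b).lattice, a i * w ∈ (Λ b).lattice) →
    (∀ i, c i ≠ b → a i = 0) → (∀ z ∈ U, ∑ i, a i * p i z = e) → a = 0
  analytic_t : ∀ k, AnalyticOnNhd ℂ (t k) U
  /-- no nontrivial combination with integral coefficients of the `t_k` is constant -/
  independent_t : ∀ (m : Fin s → ℤ) (e : ℂ), (∀ z ∈ U, ∑ k, (m k : ℂ) * t k z = e) → m = 0
  card : S.card = r + s
  algebraic : ∀ x ∈ S, Algebraic U (fun z => value Λ c p t z x)

/-- The algebraic numbers which are zeros of nonzero polynomials of degree at most `m` with integral coefficients of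
absolute value at most `T`. -/
def Numbers (m : ℕ) (T : ℝ) : Set ℂ :=
  {x | ∃ P : Polynomial ℤ, P ≠ 0 ∧ P.natDegree ≤ m ∧ (∀ i, |(P.coeff i : ℝ)| ≤ T) ∧ Polynomial.aeval x P = 0}

/-- The algebraic integers of the field generated by `S` all of whose conjugates have absolute value at most `H`. -/
def Integers (S : Set ℂ) (H : ℝ) : Set ℂ :=
  {c | c ∈ IntermediateField.adjoin ℚ S ∧ IsIntegral ℤ c ∧ ∀ z ∈ (minpoly ℚ c).aroots ℂ, ‖z‖ ≤ H}

/-- The number of the different fields `ℚ(x)`, `x ∈ X`. -/
noncomputable def fields (X : Finset ℂ) : ℕ :=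
  Set.ncard {G : IntermediateField ℚ ℂ | ∃ x ∈ X, G = IntermediateField.adjoin ℚ {x}}

/-- The `n`-tuples `x`, `x_j ∈ X_j`, for which there is a polynomial `P` of degree at most `d` in each variable, with
coefficients of the form `∑ ξ_i c_i`, where the `c_i` are integers of the field `ℚ(x_1, …, x_n)` all of whose conjugates
have absolute value at most `T ^ A`, such that the value of `P` at the numbers `v j (x j) i` is at most `T ^ (-B)` times
the absolute value of some nonzero coefficient of `P`. -/
def Exceptional {n : ℕ} (d : ℕ) {g : ℕ} {J : Fin n → Type} (v : ∀ j, ℂ → J j → ℂ) (X : Fin n → Finset ℂ)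
    (ξ : Fin g → ℂ) (A B T : ℝ) : Set (Fin n → ℂ) :=
  {x | (∀ j, x j ∈ X j) ∧ ∃ P : MvPolynomial (Σ j, J j) ℂ, (∀ y, P.degreeOf y ≤ d) ∧
    (∀ s, ∃ c : Fin g → ℂ, (∀ i, c i ∈ Integers (Set.range x) (T ^ A)) ∧ P.coeff s = ∑ i, ξ i * c i) ∧
    ∃ s₀, P.coeff s₀ ≠ 0 ∧
      ‖MvPolynomial.aeval (fun y : Σ j, J j => v y.1 (x y.1) y.2) P‖ ≤ T ^ (-B) * ‖P.coeff s₀‖}

/-- the name of a function -/
def nm {r s : ℕ} : Y776.Cv.Nf r s → Name r s :=
  Sum.elim Name.t (Sum.elim Name.expt (Sum.elim Name.p (Sum.elim Name.zeta Name.wp)))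

/-- the function with a given name -/
def mn {r s : ℕ} : Name r s → Y776.Cv.Nf r s := fun a => match a with
  | Name.t k => Sum.inl k
  | Name.expt k => Sum.inr (Sum.inl k)
  | Name.p i => Sum.inr (Sum.inr (Sum.inl i))
  | Name.zeta i => Sum.inr (Sum.inr (Sum.inr (Sum.inl i)))
  | Name.wp i => Sum.inr (Sum.inr (Sum.inr (Sum.inr i)))

/-- the names and the functions -/
def eqv (r s : ℕ) : Y776.Cv.Nf r s ≃ Name r s where
  toFun := nm
  invFun := mn
  left_inv := by
    rintro (a | a | a | a | a) <;> rfl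
  right_inv := by
    rintro (a | a | a | a | a) <;> rfl

theorem value_eq {q r s : ℕ} (Λ : Fin q → PeriodPair) (c : Fin r → Fin q) (p : Fin r → ℂ → ℂ)
    (t : Fin s → ℂ → ℂ) (z : ℂ) (i : Y776.Cv.Nf r s) : value Λ c p t z (nm i) = Y776.Cv.yf Λ c p t i z := by
  rcases i with (a | a | a | a | a) <;> rfl

noncomputable instance (r s : ℕ) : Fintype (Name r s) := Fintype.ofEquiv _ (eqv r s)

theorem card_name (r s : ℕ) : Fintype.card (Name r s) = 3 * r + 2 * s := by
  rw [← Fintype.card_congr (eqv r s)]
  simp only [Fintype.card_sum, Fintype.card_fin]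
  ring

theorem fx {U : Set ℂ} {q r s : ℕ} {Λ : Fin q → PeriodPair} {c : Fin r → Fin q} {p : Fin r → ℂ → ℂ}
    {t : Fin s → ℂ → ℂ} {S : Finset (Name r s)} (h : Curve U Λ c p t S) : Y776.Cv.FxM U Λ c p t :=
  { isOpen := h.isOpen, conn := h.isPreconnected, ni := h.not_isogenous, ua := h.analytic_p, un := h.p_notMem
    ui := h.independent_p, la := h.analytic_t, li := h.independent_t }

/-- all other functions are independent -/
theorem loc {U : Set ℂ} {q r s : ℕ} {Λ : Fin q → PeriodPair} {c : Fin r → Fin q} {p : Fin r → ℂ → ℂ}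
    {t : Fin s → ℂ → ℂ} {S : Finset (Name r s)} (h : Curve U Λ c p t S) [Fintype {x : Name r s // x ∉ S}] :
    ∀ t' ∈ U, Y124.LocInd (fun (k : {x : Name r s // x ∉ S}) => Y776.Cv.yf Λ c p t (mn k.1)) t' := by
  classical
  choose! P hP0 hP using h.algebraic
  refine Q192.QD.fixAll (fx h) (by rw [add_comm]; exact h.pos) h.nonempty
    (fun k => Y776.Cv.yf_an (fx h) _) ?_
    (G := ⋃ x : Name r s, ((P x).coeffs : Set ℂ))
    (Set.countable_iUnion fun x => Set.Finite.countable (Finset.finite_toSet _)) ?_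
  · have h1 := Fintype.card_subtype_compl (fun x => x ∈ S)
    rw [Fintype.card_congr (Equiv.refl {x : Name r s // x ∉ S})] at h1
    have h2 : Fintype.card {x : Name r s // x ∈ S} = r + s := by
      rw [Fintype.card_coe, h.card]
    rw [card_name, h2] at h1
    have h3 : Fintype.card {x : Name r s // x ∉ S} = 3 * r + 2 * s - (r + s) := by
      rw [← h1]
    rw [h3]
    omega
  · intro F hF z hz htr o
    by_cases ho : nm o ∈ S
    · have h1 : Y776.Fam.AlgOver F U (fun z => value Λ c p t z (nm o)) :=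
        ⟨P (nm o), hP0 _ ho, fun e he => hF (Set.mem_iUnion.2 ⟨nm o, he⟩), hP _ ho⟩
      have h2 := h1.mem le_rfl hz htr
      simp only [value_eq] at h2
      exact Y685.clo_le (fun s hs => by
        rw [Set.mem_singleton_iff.1 hs]
        exact Y685.subset_clo (Set.mem_insert _ _)) h2
    · refine Y685.subset_clo (Set.mem_insert_of_mem _ ⟨⟨nm o, ho⟩, ?_⟩)
      have h4 : mn (nm o) = o := (eqv r s).left_inv o
      change Y776.Cv.yf Λ c p t (mn (nm o)) z = _
      rw [h4]

/-- For `n` curves (equal or different) and sets `S_j` of `r_j + s_j` functions which are algebraic over `ℂ(z)`, for all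
compact sets `K_j` in `U_j` and all `m`, `g`, `d`, `A` and `ε > 0` there are `B`, `C`, `T₀` such that for all complex
numbers `ξ_1, …, ξ_g`, all `T ≥ T₀` and all finite sets `X_j ⊆ K_j` of algebraic numbers of degree at most `m` and height at
most `T` the number of `n`-tuples in `X_1 × ⋯ × X_n` which are exceptional for the `2 r_j + s_j` functions not in `S_j`,
for all `j`, is at most `C T^ε ∑_j (number of the fields ℚ(x), x ∈ X_j) ∏_(i ≠ j) |X_i|`. -/
theorem result {n : ℕ} {q r s : Fin n → ℕ} (U : Fin n → Set ℂ) (Λ : ∀ j, Fin (q j) → PeriodPair)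
    (c : ∀ j, Fin (r j) → Fin (q j)) (p : ∀ j, Fin (r j) → ℂ → ℂ) (t : ∀ j, Fin (s j) → ℂ → ℂ)
    (S : ∀ j, Finset (Name (r j) (s j))) (hU : ∀ j, Curve (U j) (Λ j) (c j) (p j) (t j) (S j))
    (K : Fin n → Set ℂ) (hK : ∀ j, IsCompact (K j)) (hKU : ∀ j, K j ⊆ U j) (m g d : ℕ) (A ε : ℝ) (hε : 0 < ε) :
    ∃ B C T₀ : ℝ, ∀ (ξ : Fin g → ℂ) (T : ℝ), T₀ ≤ T → ∀ X : Fin n → Finset ℂ,
      (∀ j, ∀ x ∈ X j, x ∈ K j ∧ x ∈ Numbers m T) →
      (Exceptional d (fun j z (k : {x : Name (r j) (s j) // x ∉ S j}) => value (Λ j) (c j) (p j) (t j) z k.1)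
        X ξ A B T).Finite ∧
        ((Exceptional d (fun j z (k : {x : Name (r j) (s j) // x ∉ S j}) => value (Λ j) (c j) (p j) (t j) z k.1)
          X ξ A B T).ncard : ℝ) ≤
          C * T ^ ε * ∑ j, (fields (X j) : ℝ) * ∏ i ∈ Finset.univ.erase j, ((X i).card : ℝ) := by
  classical
  obtain ⟨B, C, T₀, H⟩ := Q192.QD.fields_sigma (η := Fin g) m n d
    (fun j => (hU j).isOpen) (fun j => (hU j).isPreconnected)
    (y := fun j (k : {x : Name (r j) (s j) // x ∉ S j}) => Y776.Cv.yf (Λ j) (c j) (p j) (t j) (mn k.1))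
    (fun j k => Y776.Cv.yf_an (fx (hU j)) _) (fun j => loc (hU j)) hK hKU A ε hε
  refine ⟨B, C, T₀, fun ξ T hT X hX => H ξ T hT X hX _ ?_⟩
  rintro x ⟨hx, P, hPd, hPc, s₀, hs₀, hs⟩
  refine ⟨hx, P, hPd, hPc, s₀, hs₀, ?_⟩
  have hv : (fun y : Σ j, {x : Name (r j) (s j) // x ∉ S j} =>
      value (Λ y.1) (c y.1) (p y.1) (t y.1) (x y.1) y.2.1) =
      fun y : Σ j, {x : Name (r j) (s j) // x ∉ S j} =>
        Y776.Cv.yf (Λ y.1) (c y.1) (p y.1) (t y.1) (mn y.2.1) (x y.1) := by
    funext y
    have h1 := value_eq (Λ y.1) (c y.1) (p y.1) (t y.1) (x y.1) (mn y.2.1)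
    have h2 : nm (mn y.2.1) = y.2.1 := (eqv (r y.1) (s y.1)).right_inv _
    rw [h2] at h1
    exact h1
  rw [hv] at hs
  exact hs

end Pool.Agent.Results.MP_2ad15a_nt.ManyNumberFields
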