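import Pool.Agent.Q229.RAE
import Pool.Agent.TH818.AP.Wp2

/-!
# Elliptic logarithms of ALL rational points near almost every real point

Let `L_j` be lattices stable under complex conjugation and `p_j` real analytic branches of the inverse of `℘_j` on the open
sets `D_j`. For rational `q_j` in `D_j` we consider the `2 n + 1` numbers `π`, `p_j(q_j)`, `ζ_j(p_j(q_j))`.

The starting file `EllipticLogarithms` bounds the number of the exceptional tuples of height `T` by `T^(2(n-1)+β)` for some
`β < 2`; with the counting theorem of `Pool.Agent.Y120.RealPolys` (`β` arbitrarily small) and coverings we obtain all rational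
points near all real points outside a set of small Hausdorff dimension.
-/

set_option autoImplicit false

open MeasureTheory Filter
open scoped PeriodPair

namespace Pool.Agent.Results.MP_2ad15a_nt.RationalsNearRealPoints

/-- The Weierstrass `ζ` function of the lattice `L`. -/
noncomputable def zeta (L : PeriodPair) (z : ℂ) : ℂ := ∑' l : L.lattice, (1 / (z - l) + 1 / l + z / l ^ 2)

/-- The `2n + 1` numbers `π`, `p_j(q_j)`, `ζ_j(p_j(q_j))`. -/
noncomputable def numbers {n : ℕ} (L : Fin n → PeriodPair) (p : Fin n → ℝ → ℝ) (q : Fin n → ℚ)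
    (x : Option (Fin n × Fin 2)) : ℂ :=
  match x with
  | none => Real.pi
  | some (j, 0) => p j (q j)
  | some (j, 1) => zeta (L j) (p j (q j))

/-- **Theorem.** Let `n ≥ 1`, let the lattices `L_j` be stable under complex conjugation, let `p_j` be real analytic on the open
set `D_j` with values outside `L_j` and `℘_j(p_j(t)) = t`, and consider the numbers `π`, `p_j(q_j)`, `ζ_j(p_j(q_j))` (domain:
`x_j ∈ D_j`). Then for every `τ > 0` there is a set `Z ⊂ ℝ^n` of Hausdorff dimension at most
`2 (n - 1) / τ` (dimension `0` for `n = 1`), and of Lebesgue measure zero if `2 (n - 1) < n τ`, such that for all `x ∉ Z` in the domain,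
all `d`, `A`, some `B` and all sufficiently large `T` the following holds for ALL rational points `q` with denominators at most `T`
and `|x_j - q_j| ≤ T ^ (-τ)`: every nonzero integer polynomial of degree at most `d` in each variable with coefficients at
most `T ^ A` takes at these numbers a value larger than `T ^ (-B)` in absolute value. -/
theorem result (n : ℕ) (hn : 1 ≤ n) (L : Fin n → PeriodPair)
    (hL : ∀ j, ∀ l ∈ (L j).lattice, (starRingEnd ℂ) l ∈ (L j).lattice) (D : Fin n → Set ℝ) (hD : ∀ j, IsOpen (D j))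
    (p : Fin n → ℝ → ℝ) (hp : ∀ j, AnalyticOnNhd ℝ (p j) (D j)) (hpL : ∀ j, ∀ t ∈ D j, (p j t : ℂ) ∉ (L j).lattice)
    (hpt : ∀ j, ∀ t ∈ D j, ℘[L j] (p j t) = t) (τ : ℝ) (hτ : 0 < τ) :
    ∃ Z : Set (Fin n → ℝ), dimH Z ≤ ENNReal.ofReal (2 * ((n : ℝ) - 1) / τ) ∧
      (2 * ((n : ℝ) - 1) < n * τ → volume Z = 0) ∧
      ∀ x : Fin n → ℝ, (∀ j, x j ∈ D j) → x ∉ Z → ∀ (d : ℕ) (A : ℝ), ∃ B : ℝ, ∀ᶠ T : ℝ in atTop,
        ∀ q : Fin n → ℚ, (∀ j, ((q j).den : ℝ) ≤ T ∧ |x j - q j| ≤ T ^ (-τ)) →
        ∀ P : MvPolynomial (Option (Fin n × Fin 2)) ℤ, P ≠ 0 → (∀ z, P.degreeOf z ≤ d) →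
          (∀ u, |((P.coeff u : ℤ) : ℝ)| ≤ T ^ A) → T ^ (-B) < ‖MvPolynomial.aeval (numbers L p q) P‖ := by
  refine Pool.Agent.Q229.RA.masterO hn (fun j => ![p j, fun t => (H667R3.zeta (L j) (p j t)).re]) (fun _ => 0) D hD ?_ ?_
    (fun q => numbers L p q) (fun _ => rfl) ?_ τ hτ
  · intro j i
    fin_cases i
    · exact hp j
    · intro t ht
      obtain ⟨ε, hε, hball⟩ := Metric.isOpen_iff.1 (hD j) t ht
      have hsub : Set.Icc (t - ε / 2) (t + ε / 2) ⊆ D j := fun y hy => hball (by
        rw [Metric.mem_ball, Real.dist_eq, abs_lt]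
        exact ⟨by linarith [hy.1], by linarith [hy.2]⟩)
      exact TH818.AP.an_zeta ((hp j).mono hsub) (fun s hs => hpL j s (hsub hs)) t ⟨by linarith, by linarith⟩
  · intro j a b hab hsub d
    exact TH818.AP.wp_indep2 d (hL j) hab ((hp j).mono hsub) (fun t ht => hpL j t (hsub ht))
      (fun t ht => hpt j t (hsub ht))
  · intro q hq j i
    rw [pow_zero, one_mul]
    match i with
    | 0 => rfl
    | 1 => exact (TH818.AP.zeta_real (hL j) (p j (q j))).symm

end Pool.Agent.Results.MP_2ad15a_nt.RationalsNearRealPoints
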