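import Pool.Agent.Y627.KW.EllC

/-!
# Almost all tuples for which one of the numbers `p`, `℘ (p)`, `ζ (p)`, `exp (λ p)` is prescribed in a number field

For algebraic invariants and `n` points `p_j`, for each of which one of the three numbers `p_j`, `℘ (p_j)`, `ζ (p_j)` is
algebraic, the elliptic analogue of Schanuel's conjecture predicts that the other `2 n` numbers are algebraically
independent. We consider, for arbitrary lattices `L_1, …, L_n`, analytic functions `p_j` on open connected sets `S_j`, for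
each of which one of the functions `p_j (t)`, `℘_j (p_j (t))`, `ζ_j (p_j (t))`, `exp (λ_(j l) p_j (t))` is `t`; so `p_j (x_j)`
may be the number `x_j` itself (the side of the theorem of Lindemann and Weierstrass), a branch of the inverse function of
`℘_j` or `ζ_j`, or a logarithm of `x_j`. The tuples `x = (x_1, …, x_n)` in `k ^ n`, `k` any number field in `ℂ`, of height at
most `T`, for which `π` and all other numbers (`r + 2` for each `j`) satisfy a relation (even an approximate one) of degree at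
most `d` with coefficients in `k` of height at most `T ^ A` lie on at most `C T ^ ε` hypersurfaces of degree at most `D`.
The starting file `NumberFieldTuples` has the case `℘_j (p_j (t)) = t` for all `j`, and the same `λ_l` for all `j`.

Proof: the general theorem of helper124 in the form of helper771 (`Pool.Agent.Y771.KF.stdK`) reduces this to the algebraic
independence of the functions `z`, `℘ (z)`, `ζ (z)`, `exp (λ_l z)` over `ℂ` (`Pool/Agent/Y627/KW/Ell.lean`).
-/

set_option autoImplicit false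

open MvPolynomial
open scoped PeriodPair

namespace Pool.Agent.Results.MP_2ad15a_nt.TuplesOfAllKinds

/-- The Weierstrass zeta function `ζ(z) = ∑ (1/(z-l) + 1/l + z/l²)`, the sum over the lattice (the summand of `l = 0` is
`1/z`, since `1/0 = 0` in Lean). -/
noncomputable def zeta (L : PeriodPair) (z : ℂ) : ℂ := ∑' l : L.lattice, (1 / (z - l) + 1 / l + z / l ^ 2)

/-- The `r + 3` numbers `exp (λ_l z)`, `z`, `℘ (z)`, `ζ (z)`. -/
noncomputable def val {r : ℕ} (L : PeriodPair) (lam : Fin r → ℂ) (z : ℂ) : Fin r ⊕ Fin 3 → ℂ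
  | Sum.inl l => Complex.exp (lam l * z)
  | Sum.inr 0 => z
  | Sum.inr 1 => ℘[L] z
  | Sum.inr 2 => zeta L z

/-- The number `π` and the numbers `exp (λ_(j l) p_j (x_j))`, `p_j (x_j)`, `℘_j (p_j (x_j))`, `ζ_j (p_j (x_j))`, where `x_j`
is read as a complex number by the embedding `σ`. -/
noncomputable def numbers {k : Type} [Field k] (σ : k →+* ℂ) {n r : ℕ} (L : Fin n → PeriodPair)
    (lam : Fin n → Fin r → ℂ) (p : Fin n → ℂ → ℂ) (x : Fin n → k) : Option (Fin n × (Fin r ⊕ Fin 3)) → ℂ
  | none => (Real.pi : ℂ)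
  | some (j, w) => val (L j) (lam j) (p j (σ (x j))) w

/-- The `n`-tuples `x` of elements of `k`, of height at most `T` and with `σ x_j ∈ K_j`, for which some nonzero
polynomial with coefficients in `k` of height at most `T ^ A`, of degree at most `d` in each variable, which does not
contain the variables of the numbers with the indices `(j, kind j)`, takes at the numbers above a value of absolute value
at most `T ^ (-B)`. -/
def Exceptional {k : Type} [Field k] [NumberField k] (σ : k →+* ℂ) {n r : ℕ} (d : ℕ) (L : Fin n → PeriodPair)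
    (lam : Fin n → Fin r → ℂ) (kind : Fin n → Fin r ⊕ Fin 3) (p : Fin n → ℂ → ℂ) (K : Fin n → Set ℂ)
    (A B T : ℝ) : Set (Fin n → k) :=
  {x | (∀ j, σ (x j) ∈ K j ∧ Height.mulHeight₁ (x j) ≤ T) ∧
    ∃ P : MvPolynomial (Option (Fin n × (Fin r ⊕ Fin 3))) k, P ≠ 0 ∧ (∀ i, P.degreeOf i ≤ d) ∧
      (∀ j, P.degreeOf (some (j, kind j)) = 0) ∧
      (∀ e, Height.mulHeight₁ (P.coeff e) ≤ T ^ A) ∧
      ‖MvPolynomial.eval₂ σ (numbers σ L lam p x) P‖ ≤ T ^ (-B)}

theorem val_eq {r : ℕ} (L : PeriodPair) (lam : Fin r → ℂ) (z : ℂ) :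
    val L lam z = Pool.Agent.Y627.KW.ev4 L lam z := by
  funext w
  rcases w with l | i
  · rfl
  · fin_cases i <;> rfl

/-- the indices different from the given one -/
theorem exists_equiv {r : ℕ} (a : Fin r ⊕ Fin 3) : Nonempty (Fin (r + 2) ≃ {w : Fin r ⊕ Fin 3 // w ≠ a}) := by
  refine ⟨(Fintype.equivFinOfCardEq ?_).symm⟩
  have h := Fintype.card_subtype_compl (fun w : Fin r ⊕ Fin 3 => w = a)
  rw [Fintype.card_subtype_eq] at h
  rw [h, Fintype.card_sum, Fintype.card_fin, Fintype.card_fin]
  omega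

theorem val_an {r : ℕ} (L : PeriodPair) (lam : Fin r → ℂ) (S : Set ℂ) (p : ℂ → ℂ) (hp : AnalyticOnNhd ℂ p S)
    (hpL : ∀ t ∈ S, p t ∉ L.lattice) (w : Fin r ⊕ Fin 3) : AnalyticOnNhd ℂ (fun t => val L lam (p t) w) S := by
  intro u hu
  rcases w with l | i
  · show AnalyticAt ℂ (fun z => Complex.exp (lam l * p z)) u
    exact (analyticAt_const.mul (hp u hu)).cexp
  · fin_cases i
    · exact hp u hu
    · show AnalyticAt ℂ (fun z => ℘[L] (p z)) u
      exact AnalyticAt.comp (L.analyticOnNhd_weierstrassP (p u) (hpL u hu)) (hp u hu)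
    · show AnalyticAt ℂ (fun z => zeta L (p z)) u
      exact AnalyticAt.comp (((H667R3.differentiableOn_zeta L).analyticOnNhd
        (H667R3.isOpen_compl L)) (p u) (hpL u hu)) (hp u hu)

/-- Let `k` be a number field with an embedding `σ` in `ℂ`, `n ≥ 1`, let `L_1, …, L_n` be lattices, for each `j` let
`λ_(j 1), …, λ_(j r)` be linearly independent over `ℚ`, `S_j` open connected subsets of `ℂ`, `p_j` analytic on `S_j` with
values outside `L_j` such that one of the functions `exp (λ_(j l) p_j (t))`, `p_j (t)`, `℘_j (p_j (t))`, `ζ_j (p_j (t))`, that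
of index `kind j`, is equal to `t`, and `K_j` compact subsets of `S_j`. For all `d`, `A` and `ε > 0` there are `D`, `B` and
`C` such that for all `T ≥ 1` the exceptional `n`-tuples are zeros of at most `C T ^ ε` nonzero polynomials of degree at most
`D`, and their number is at most `C T ^ ε N (T) ^ (n - 1)`, where `N (T)` is the number of elements of `k` of height at most
`T`. -/
theorem result (k : Type) [Field k] [NumberField k] (σ : k →+* ℂ) (n r d : ℕ) (hn : 1 ≤ n)
    (L : Fin n → PeriodPair) (lam : Fin n → Fin r → ℂ)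
    (hlam : ∀ j, ∀ c : Fin r → ℤ, ∑ l, (c l : ℂ) * lam j l = 0 → c = 0)
    (S : Fin n → Set ℂ) (hSo : ∀ j, IsOpen (S j)) (hSc : ∀ j, IsConnected (S j))
    (p : Fin n → ℂ → ℂ) (hp : ∀ j, AnalyticOnNhd ℂ (p j) (S j)) (hpL : ∀ j, ∀ t ∈ S j, p j t ∉ (L j).lattice)
    (kind : Fin n → Fin r ⊕ Fin 3) (hpt : ∀ j, ∀ t ∈ S j, val (L j) (lam j) (p j t) (kind j) = t)
    (K : Fin n → Set ℂ) (hK : ∀ j, IsCompact (K j)) (hKS : ∀ j, K j ⊆ S j) (A ε : ℝ) (hε : 0 < ε) :
    ∃ (D : ℕ) (B C : ℝ), ∀ T : ℝ, 1 ≤ T →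
      (∃ Φ : Finset (MvPolynomial (Fin n) k), (Φ.card : ℝ) ≤ C * T ^ ε ∧ (∀ R ∈ Φ, R ≠ 0 ∧ R.totalDegree ≤ D) ∧
        ∀ x ∈ Exceptional σ d L lam kind p K A B T, ∃ R ∈ Φ, MvPolynomial.eval x R = 0) ∧
      (Exceptional σ d L lam kind p K A B T).Finite ∧
      ((Exceptional σ d L lam kind p K A B T).ncard : ℝ) ≤
        C * T ^ ε * ({x : k | Height.mulHeight₁ x ≤ T}.ncard : ℝ) ^ (n - 1) := by
  classical
  choose e he using fun j => (⟨(exists_equiv (kind j)).some, trivial⟩ :
    ∃ e : Fin (r + 2) ≃ {w : Fin r ⊕ Fin 3 // w ≠ kind j}, True)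
  let f : Fin n → Fin (r + 2) → ℂ → ℂ := fun j i t => val (L j) (lam j) (p j t) (e j i).1
  obtain ⟨D, B, C, h⟩ := Pool.Agent.Y627.KW.main σ n d hn f S K
    (fun j => (hSc j).isPreconnected) hK hKS
    (fun j i => val_an (L j) (lam j) (S j) (p j) (hp j) (hpL j) _)
    (fun j => by
      refine Pool.Agent.Y627.KW.indep_of_inv (L j) (lam j) (hlam j) _ _ (hSo j) (hSc j).nonempty (p j)
        (hp j).continuousOn ?_ (hpL j) (fun o => o.elim (kind j) fun i => (e j i).1) ?_ ?_
      · intro t ht t' ht' h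
        rw [← hpt j t ht, ← hpt j t' ht', h]
      · rintro (_ | i) (_ | i') h
        · rfl
        · exact absurd h.symm (e j i').2
        · exact absurd h (e j i).2
        · simp only [Option.elim_some] at h
          rw [(e j).injective (Subtype.ext h)]
      · rintro t ht (_ | i)
        · simp only [Option.elim_none]
          rw [← val_eq, hpt j t ht]
        · simp only [Option.elim_some]
          rw [← val_eq])
    A ε hε
  let ι : Option (Fin n × Fin (r + 2)) → Option (Fin n × (Fin r ⊕ Fin 3)) :=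
    Option.map fun q => (q.1, (e q.1 q.2).1)
  have hι : Function.Injective ι := by
    refine Option.map_injective ?_
    rintro ⟨j, i⟩ ⟨j', i'⟩ hq
    simp only [Prod.mk.injEq] at hq
    obtain ⟨rfl, h2⟩ := hq
    rw [(e j).injective (Subtype.ext h2)]
  have hsub : ∀ T, Exceptional σ d L lam kind p K A B T ⊆ Pool.Agent.Y627.KW.ExcW σ d f K A B T := by
    rintro T x ⟨hx, P, hP0, hPd, hPk, hPc, hPs⟩
    obtain ⟨Q, rfl⟩ : ∃ Q, rename ι Q = P := by
      refine exists_rename_eq_of_vars_subset_range P ι hι ?_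
      rintro (_ | ⟨j, w⟩) hv
      · exact ⟨none, rfl⟩
      · have hw : w ≠ kind j := by
          rintro rfl
          rw [Finset.mem_coe, mem_vars_iff_degreeOf_ne_zero] at hv
          exact hv (hPk j)
        refine ⟨some (j, (e j).symm ⟨w, hw⟩), ?_⟩
        simp [ι]
    refine ⟨hx, Q, ?_, ?_, ?_, ?_⟩
    · rintro rfl
      exact hP0 (map_zero _)
    · intro i
      rw [← degreeOf_rename_of_injective hι]
      exact hPd _
    · intro s
      rw [← coeff_rename_mapDomain ι hι]
      exact hPc _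
    · rw [eval₂_rename] at hPs
      have heq : numbers σ L lam p x ∘ ι = Pool.Agent.Y627.KW.numW σ f x := by
        funext o
        rcases o with _ | ⟨j, i⟩
        · rfl
        · rfl
      rw [← heq]
      exact hPs
  refine ⟨D, B, C, fun T hT => ?_⟩
  obtain ⟨⟨Φ, h1, h2, h3⟩, h4, h5⟩ := h T hT
  refine ⟨⟨Φ, h1, h2, fun x hx => h3 x (hsub T hx)⟩, h4.subset (hsub T), le_trans ?_ h5⟩
  exact_mod_cast Set.ncard_le_ncard (hsub T) h4

end Pool.Agent.Results.MP_2ad15a_nt.TuplesOfAllKinds
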